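import Pool.Agent.helper62.VD.SpecE2

/-!
# MP_07c750_an, project VD, row vde:SER
-/

set_option autoImplicit false

open MeasureTheory Filter Set Topology
open scoped ENNReal ContDiff InnerProductSpace

namespace Pool.Agent.VDE

open VD

noncomputable section

/-- integrals over the shell -/
theorem SER_int {α : Type} [MeasurableSpace α] (ν : Measure α) {S : Set α} (hS : MeasurableSet S)
    (h0 : ν Sᶜ = 0) {A : Set α} (hA : MeasurableSet A) (g : α → ℝ) :
    ∫ x in {x : S | (x : α) ∈ A}, g x ∂(ν.comap (Subtype.val : S → α)) = ∫ x in A, g x ∂ν := by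
  have hA' : MeasurableSet {x : S | (x : α) ∈ A} := measurable_subtype_coe hA
  rw [← integral_indicator hA', ← integral_indicator hA]
  have h1 := integral_subtype_comap (μ := ν) hS (A.indicator g)
  have h2 : (fun x : S => {x : S | (x : α) ∈ A}.indicator (fun x : S => g x) x) =
      fun x : S => A.indicator g (x : α) := by
    funext x
    by_cases hx : (x : α) ∈ A
    · rw [Set.indicator_of_mem hx]
      exact Set.indicator_of_mem (show x ∈ {x : S | (x : α) ∈ A} from hx) _
    · rw [Set.indicator_of_notMem hx]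
      exact Set.indicator_of_notMem (show x ∉ {x : S | (x : α) ∈ A} from hx) _
  rw [h2, h1]
  have h3 : ν.restrict S = ν := by
    apply Measure.restrict_eq_self_of_ae_mem
    exact h0
  rw [h3]

theorem SER_proof (h1 : EWK_stmt) (h2 : SBF_stmt) (h3 : SCN_stmt) (h4 : SLF_stmt) (h5 : SMG_stmt)
    (h6 : SNM_stmt) : SER_stmt := by
  intro d Γ _ _ K F0 G Φ C dd hd hfl hGV hSH h hh e v0 he hv0
  obtain ⟨act, f, hact, hf, hBF⟩ := h2 d Γ K F0 G Φ C dd (by omega) hfl
  letI := act
  haveI hpre : PreconnectedSpace {p : P d // nrm G p = 1} :=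
    Subtype.preconnectedSpace (h3 d G hfl.met hd)
  obtain ⟨hnc, -, -, -, -⟩ := h6 d G hfl.met
  obtain ⟨-, -, hsh⟩ := h4 d G hfl.met
  have hSm : MeasurableSet {p : P d | nrm G p = 1} :=
    (isClosed_eq hnc continuous_const).measurableSet
  have hS0 : (liou G) {p : P d | nrm G p = 1}ᶜ = 0 := hsh
  have hemb : MeasurableEmbedding (Subtype.val : {p : P d // nrm G p = 1} → P d) :=
    MeasurableEmbedding.subtype_coe hSm
  have hcomap : ∀ A : Set {p : P d // nrm G p = 1},
      ((liou G).comap Subtype.val) A = liou G (Subtype.val '' A) := fun A =>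
    hemb.comap_apply (liou G) A
  have hBB : ∀ (T : ℝ) (x : {p : P d // nrm G p = 1}) (ε : ℝ),
      Subtype.val '' (BB (fun x y : {p : P d // nrm G p = 1} => dd x.1 y.1) f T x ε) =
        BS G Φ dd T x.1 ε := by
    intro T x ε
    ext y
    constructor
    · rintro ⟨z, hz, rfl⟩
      refine ⟨z.2, fun s hs => ?_⟩
      have := hz s hs
      rw [← hf, ← hf]
      exact this
    · rintro ⟨hy, hy'⟩
      refine ⟨⟨y, hy⟩, fun s hs => ?_, rfl⟩
      show dd (f s x).1 (f s ⟨y, hy⟩).1 ≤ ε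
      rw [hf, hf]
      exact hy' s hs
  obtain ⟨ε0, hε0, hG⟩ := hGV
  have hGV' : GV ((liou G).comap (Subtype.val : {p : P d // nrm G p = 1} → P d))
      (fun x y : {p : P d // nrm G p = 1} => dd x.1 y.1) f ε0 := by
    intro ε' ε a1 a2 a3
    obtain ⟨c, hc, hc'⟩ := hG ε' ε a1 a2 a3
    refine ⟨c, hc, fun x T U hT hU => ?_⟩
    have b1 := hc' x.1 T U x.2 hT hU
    rw [hcomap, hcomap, hcomap, hBB, hBB, hBB, hf]
    exact b1
  have hSH' : SHB (fun x y : {p : P d // nrm G p = 1} => dd x.1 y.1) f := by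
    intro ε hε
    obtain ⟨δ, hδ, hδ'⟩ := hSH ε hε
    refine ⟨δ, hδ, fun n x hx => ?_⟩
    obtain ⟨z, τ, hz, hτ0, hτ1, hτ2, hτ3⟩ := hδ' n (fun i => (x i).1) (fun i => (x i).2)
      (fun i hi => by
        have := hx i hi
        have e1 : dd (f 1 (x i)).1 (x (i + 1)).1 ≤ δ := this
        rw [hf] at e1
        exact e1)
    refine ⟨⟨z, hz⟩, τ, hτ0, hτ1, fun i hi s hs => ?_, fun i j hij hj hl => ?_⟩
    · show dd (f s (x i)).1 (f (τ i + s) ⟨z, hz⟩).1 ≤ ε
      rw [hf, hf]
      exact hτ2 i hi s hs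
    · refine hτ3 i j hij hj fun l hl1 hl2 => ?_
      have := congrArg Subtype.val (hl l hl1 hl2)
      rw [hf] at this
      exact this
  have hTH : TH Γ {p : P d // nrm G p = 1} (fun x => h x.1.1) := by
    refine ⟨?_, fun γ x => ?_, fun x => hh.bd _⟩
    · exact hh.cont.comp (continuous_fst.comp continuous_subtype_val)
    · show h (γ • x).1.1 = h x.1.1
      rw [hact]
      exact hh.inv γ x.1.1
  obtain ⟨T0, hT0, hT⟩ := h1 Γ {p : P d // nrm G p = 1} ((liou G).comap Subtype.val)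
    {x | x.1.1 ∈ F0} {x | x.1.1 ∈ K} (fun x y => dd x.1 y.1) f ε0 hBF hε0 hGV' hSH'
    (fun x => h x.1.1) hTH e v0 he hv0
  refine ⟨T0, hT0, fun T hTT => ?_⟩
  have hav : ∀ x : {p : P d // nrm G p = 1}, av f (fun x => h x.1.1) T x = avV Φ h T x.1 := by
    intro x
    unfold av avV
    have e1 : (fun t => h (f t x).1.1) = fun t => h (Φ t x.1).1 := by
      funext t
      rw [hf]
    rw [e1]
  have hF0m : MeasurableSet {p : P d | p.1 ∈ F0} := measurable_fst hfl.fdx.meas
  obtain ⟨-, -, -, hSMG⟩ := h5 d G hfl.met (by omega)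
  have hKc : IsCompact K := hfl.fdk.compact
  have i1 := hSMG F0 K h hfl.fdx.meas hKc hfl.fdx.sub hh.cont
  have i2 := hSMG F0 K (fun _ => 1) hfl.fdx.meas hKc hfl.fdx.sub continuous_const
  have hb : (volume (Metric.ball (0 : V d) 1)).toReal ≠ 0 := by
    have hpos : 0 < volume (Metric.ball (0 : V d) 1) := Metric.measure_ball_pos _ _ one_pos
    have hfin : volume (Metric.ball (0 : V d) 1) < ⊤ := measure_ball_lt_top
    exact (ENNReal.toReal_pos hpos.ne' hfin.ne).ne'
  have hmn : mn ((liou G).comap (Subtype.val : {p : P d // nrm G p = 1} → P d))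
      {x | x.1.1 ∈ F0} (fun x => h x.1.1) = mnV F0 G h := by
    unfold mn mnV
    have e1 := SER_int (liou G) hSm hS0 hF0m (fun p => h p.1)
    have e2 : (((liou G).comap (Subtype.val : {p : P d // nrm G p = 1} → P d))
        {x | x.1.1 ∈ F0}).toReal = ∫ p in {p : P d | p.1 ∈ F0}, (1 : ℝ) ∂liou G := by
      have e3 := SER_int (liou G) hSm hS0 hF0m (fun _ => 1)
      rw [← e3, setIntegral_const, smul_eq_mul, mul_one]
      rfl
    have e4 : ∫ x in {x : {p : P d // nrm G p = 1} | x.1.1 ∈ F0}, h x.1.1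
        ∂((liou G).comap (Subtype.val : {p : P d // nrm G p = 1} → P d)) =
        ∫ p in {p : P d | p.1 ∈ F0}, h p.1 ∂liou G := e1
    rw [e4, e2, i1, i2]
    simp only [one_mul]
    rw [mul_div_mul_left _ _ hb]
  have hfin := hT T hTT
  rw [hmn, hcomap] at hfin
  unfold UWLD
  refine le_trans ?_ hfin
  have hsub : {p : P d | p.1 ∈ F0 ∧ e ≤ |avV Φ h T p - mnV F0 G h|} ⊆
      (Subtype.val '' ({x : {p : P d // nrm G p = 1} | x.1.1 ∈ F0} ∩
        {x | e ≤ |av f (fun x => h x.1.1) T x - mnV F0 G h|})) ∪ {p : P d | nrm G p = 1}ᶜ := by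
    rintro p ⟨hp1, hp2⟩
    by_cases hp : nrm G p = 1
    · left
      refine ⟨⟨p, hp⟩, ⟨hp1, ?_⟩, rfl⟩
      show e ≤ |av f (fun x => h x.1.1) T ⟨p, hp⟩ - mnV F0 G h|
      rw [hav]
      exact hp2
    · right
      exact hp
  refine (measure_mono hsub).trans ((measure_union_le _ _).trans ?_)
  rw [hS0, add_zero]

end

end Pool.Agent.VDE
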